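import Pool.Agent.MP_7a2e76_pr.Mg.Upper

/-! The speed of simple random walk on the supercritical half-plane triangulations `H_α`
tends to `0` as `α ↓ 2/3` and to `1` as `α ↑ 1`. -/

namespace Pool.Agent.Results.MP_7a2e76_pr.SpeedLimits

open Set MeasureTheory Filter Topology
open Pool.Agent.MP_7a2e76_pr

theorem result (P : ℝ → Measure (HalfPlane × (ℕ → ℕ))) (s : ℝ → ℝ)
    (h : ∀ α ∈ Ioo (2 / 3 : ℝ) 1, IsProbabilityMeasure (P α) ∧ IsLaw α (P α).fst ∧
      IsWalk (P α) ∧ ∀ᵐ z ∂P α,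
        Tendsto (fun n : ℕ => (z.1.graph.dist z.1.root (z.2 n) : ℝ) / n) atTop (𝓝 (s α))) :
    Tendsto s (𝓝[>] (2 / 3)) (𝓝 0) ∧ Tendsto s (𝓝[<] 1) (𝓝 1) := by
  have hc : ∀ α ∈ Ioo (2 / 3 : ℝ) 1, Ctx α (P α).fst := fun α hα => by
    obtain ⟨a, b, -⟩ := h α hα
    exact ⟨hα.1, hα.2, inferInstance, b⟩
  have hq : ∀ q : ℕ, Tendsto (fun m => (q + 1) * m) atTop atTop := fun q =>
    tendsto_atTop_mono (fun m => Nat.le_mul_of_pos_left m (by omega)) tendsto_id
  refine ⟨tendsto_order.2 ⟨fun a ha => ?_, fun a ha => ?_⟩,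
    tendsto_order.2 ⟨fun a ha => ?_, fun a ha => ?_⟩⟩
  · filter_upwards [Ioo_mem_nhdsGT (show (2 / 3 : ℝ) < 1 by norm_num)] with α hα
    obtain ⟨_, -, -, k⟩ := h α hα
    obtain ⟨z, hz⟩ := k.exists
    exact ha.trans_le (ge_of_tendsto' hz fun n => by positivity)
  · obtain ⟨q, hqa⟩ := exists_nat_one_div_lt ha
    obtain ⟨α0, h0, up⟩ := upper (q + 1) (by omega)
    filter_upwards [Ioo_mem_nhdsGT (show (2 / 3 : ℝ) < 1 by norm_num), Ioo_mem_nhdsGT h0]
      with α hα hα0
    obtain ⟨_, -, hW, k⟩ := h α hα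
    by_contra hs
    have e := eventually_half (P α)
      (fun m => {z | m < z.1.graph.dist z.1.root (z.2 ((q + 1) * m))}) (k.mono fun z hz => by
        filter_upwards [(tendsto_order.1 (hz.comp (hq q))).1 _ (hqa.trans_le (not_lt.1 hs)),
          eventually_ge_atTop 1] with m h1 h2
        have h3 : (0 : ℝ) < m := by exact_mod_cast h2
        simp only [Function.comp, Nat.cast_mul, Nat.cast_succ] at h1
        rw [div_lt_div_iff₀ (by positivity) (by positivity)] at h1
        have : (m : ℝ) < z.1.graph.dist z.1.root (z.2 ((q + 1) * m)) := by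
          refine lt_of_mul_lt_mul_right ?_ (show (0 : ℝ) ≤ q + 1 by positivity)
          linarith
        exact_mod_cast this)
    obtain ⟨m, h1, h2⟩ := (e.and (up α hα0.2 _ (hc α hα) hW)).exists
    exact absurd h1 (not_lt.2 h2)
  · obtain ⟨q, hqa⟩ := exists_nat_one_div_lt (sub_pos.2 ha)
    filter_upwards [Ioo_mem_nhdsLT (show (2 / 3 : ℝ) < 1 by norm_num),
      mem_nhdsWithin_of_mem_nhds (lower q)] with α hα lo
    obtain ⟨_, -, hW, k⟩ := h α hα
    by_contra hs
    have e := eventually_half (P α)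
      (fun m => {z | z.1.graph.dist z.1.root (z.2 ((q + 1) * m)) ≤ q * m}) (k.mono fun z hz => by
        filter_upwards [(tendsto_order.1 (hz.comp (hq q))).2 (1 - 1 / (q + 1))
          (by linarith [not_lt.1 hs]), eventually_ge_atTop 1] with m h1 h2
        have h3 : (0 : ℝ) < m := by exact_mod_cast h2
        simp only [Function.comp, Nat.cast_mul, Nat.cast_succ] at h1
        rw [div_lt_iff₀ (by positivity), show (1 - 1 / (q + 1 : ℝ)) * ((q + 1) * m) = q * m by
          field_simp; ring] at h1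
        exact_mod_cast h1.le)
    obtain ⟨m, h1, h2⟩ := (e.and (eventually_ge_atTop 1)).exists
    exact absurd h1 (not_lt.2 (lo _ (hc α hα) hW m h2))
  · filter_upwards [Ioo_mem_nhdsLT (show (2 / 3 : ℝ) < 1 by norm_num)] with α hα
    obtain ⟨_, -, hW, k⟩ := h α hα
    by_contra hs
    have e := eventually_half (P α) (fun n => {z | ¬ z.1.Near n (z.2 n)}) (k.mono fun z hz => by
      filter_upwards [(tendsto_order.1 hz).1 1 (ha.trans_le (not_lt.1 hs)),
        eventually_ge_atTop 1] with n h1 h2 h3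
      have h4 := ((z.1.near_iff _ _).1 h3).2
      rw [one_lt_div (by exact_mod_cast h2), Nat.cast_lt] at h1
      omega)
    obtain ⟨n, h1⟩ := e.exists
    exact absurd (h1.trans_le (walk_near hW n)) (by simp)

end Pool.Agent.Results.MP_7a2e76_pr.SpeedLimits
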